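import Mathlib

namespace Pool.Agent.Results.MP_e6c168_lc.Sublinear

open Finset

/-- the envelopes `(d, j)` paid by party `i`: some contract is at `i` on day `d` and at `j` on
day `d + 1` -/
def paid {N : ℕ} (P : Fin N → Equiv.Perm (Fin N)) (i : Fin N) : Finset (Fin N × Fin N) :=
  {t | ∃ n d', d'.val = t.1.val + 1 ∧ P n t.1 = i ∧ P n d' = t.2}

variable {m : ℕ}

/-- contract `(g, r)` is on day `(a, b)` in group `g + a + 1`; its place is `b` outside its own
group and `r + b + 1` inside -/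
def q (n : Fin (m + 1) × Fin (m + 1)) : Equiv.Perm (Fin (m + 1) × Fin (m + 1)) :=
  (Equiv.prodCongrRight fun a => if a = Fin.last m then Equiv.addLeft (n.2 + 1) else 1).trans
    (Equiv.prodCongr (Equiv.addLeft (n.1 + 1)) 1)

lemma q_apply (n d : Fin (m + 1) × Fin (m + 1)) :
    q n d = (n.1 + 1 + d.1, if d.1 = Fin.last m then n.2 + 1 + d.2 else d.2) := by
  obtain ⟨a, b⟩ := d
  by_cases h : a = Fin.last m <;> simp [q, h, add_assoc]

abbrev e : Fin (m + 1) × Fin (m + 1) ≃ Fin ((m + 1) * (m + 1)) := finProdFinEquiv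

def Q (m : ℕ) (n : Fin ((m + 1) * (m + 1))) : Equiv.Perm (Fin ((m + 1) * (m + 1))) :=
  e.symm.trans ((q (e.symm n)).trans e)

lemma succ_cases {a b a' b' : Fin (m + 1)} (h : (e (a', b')).val = (e (a, b)).val + 1) :
    (a' = a ∧ b' = b + 1) ∨ (a' = a + 1 ∧ b = Fin.last m ∧ b' = 0 ∧ a ≠ Fin.last m) := by
  simp only [finProdFinEquiv_apply_val] at h
  have hb := b.2
  have hb' := b'.2
  have ha := a'.2
  rcases lt_trichotomy a'.val a.val with k | k | k
  · nlinarith
  · refine .inl ⟨Fin.ext k, Fin.ext ?_⟩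
    rw [k] at h
    rw [Fin.val_add_one_of_lt (by rw [Fin.lt_def]; simp; omega)]
    omega
  · have k2 : a'.val = a.val + 1 := by nlinarith
    rw [k2, mul_add] at h
    refine .inr ⟨Fin.ext ?_, Fin.ext (by simp; omega),
      Fin.ext (by rw [Fin.val_zero]; omega), fun e => ?_⟩
    · rw [Fin.val_add_one_of_lt (by rw [Fin.lt_def]; simp; omega), k2]
    · simp [e] at k; omega

lemma bound (m : ℕ) (i) : (paid (Q m) i).card ≤ 4 * (m + 1) := by
  obtain ⟨⟨h, s⟩, rfl⟩ := e.surjective i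
  let f : Fin 4 × Fin (m + 1) → Fin ((m + 1) * (m + 1)) × Fin ((m + 1) * (m + 1)) := fun x =>
    ![(e (x.2, s), e (h, s + 1)), (e (Fin.last m, x.2), e (h, s + 1)), (e (x.2, s), e (h + 1, 0)),
      (e (Fin.last m - 1, s), e (h + 1, x.2))] x.1
  have : paid (Q m) (e (h, s)) ⊆ univ.image f := by
    rintro ⟨d, j⟩ ht
    simp only [paid, mem_filter, mem_univ, true_and] at ht
    obtain ⟨n, d', hd, h1, rfl⟩ := ht
    obtain ⟨⟨a, b⟩, rfl⟩ := e.surjective d
    obtain ⟨⟨a', b'⟩, rfl⟩ := e.surjective d'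
    obtain ⟨⟨g, r⟩, rfl⟩ := e.surjective n
    simp only [Q, Equiv.trans_apply, Equiv.symm_apply_apply, q_apply, e.injective.eq_iff,
      Prod.mk.injEq, mem_image, mem_univ, true_and] at h1 ⊢
    obtain ⟨rfl, rfl⟩ := h1
    rcases succ_cases hd with ⟨rfl, rfl⟩ | ⟨rfl, rfl, rfl, ha⟩
    · by_cases k : a' = Fin.last m
      · exact ⟨(1, b), by simp [f, k, add_assoc]⟩
      · exact ⟨(0, a'), by simp [f, k]⟩
    · by_cases k : a + 1 = Fin.last m
      · exact ⟨(3, r + 1), by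
          simp only [f, if_neg ha, if_pos k, Matrix.cons_val, ← eq_sub_of_add_eq k, add_zero,
            add_assoc (g + 1)]⟩
      · exact ⟨(2, a), by simp [f, ha, k, add_assoc]⟩
  refine (card_le_card this).trans (card_image_le.trans ?_)
  simp

theorem result (c : ℝ) (hc : 0 < c) : ∃ N : ℕ, 2 ≤ N ∧ ∃ P : Fin N → Equiv.Perm (Fin N),
    (∀ n d : Fin N, d.val = N - 1 → P n d = n) ∧ ∀ i, ((paid P i).card : ℝ) < c * N := by
  obtain ⟨m, hm⟩ := exists_nat_gt (4 / c)
  rw [div_lt_iff₀ hc] at hm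
  refine ⟨(m + 1 + 1) * (m + 1 + 1), by nlinarith, Q (m + 1), fun n d hd => ?_, fun i => ?_⟩
  · obtain rfl : d = e (Fin.last _, Fin.last _) := by
      ext
      simp only [hd, finProdFinEquiv_apply_val, Fin.val_last]
      exact Nat.sub_eq_of_eq_add (by ring)
    obtain ⟨n, rfl⟩ := e.surjective n
    simp only [Q, Equiv.trans_apply, Equiv.symm_apply_apply, q_apply]
    simp [add_assoc, add_comm (1 : Fin _)]
  · have : ((paid (Q (m + 1)) i).card : ℝ) ≤ 4 * (m + 1 + 1) := by exact_mod_cast bound (m + 1) i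
    push_cast
    nlinarith [(Nat.cast_nonneg m : (0 : ℝ) ≤ m)]

end Pool.Agent.Results.MP_e6c168_lc.Sublinear
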